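import Pool.Agent.H8.KimA.Main
import Pool.Agent.H8.KimA.Adm

/-!
# Weakly global `p`-adic points that are not integral points

For every odd prime `ℓ` let `𝒳 = ℙ¹_ℤ ∖ 𝒟`, where `𝒟 ⊂ ℙ¹_ℤ` is the divisor `x^ℓ = ℓ y^ℓ`, and let
`b = [1 : 0] ∈ 𝒳(ℤ)`. The divisor `𝒟` is reduced and horizontal, it has `ℓ ≥ 3` complex points,
and it is étale over `ℤ[1/ℓ]`, so that `(𝒳, b, p, {ℓ})` is admissible for every odd prime
`p ≠ ℓ`.  We prove that for all these `(𝒳, b, p)` and all levels `n` the set `𝒳(ℤ)` is strictly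
contained in the set `𝒳(ℤ_p)_n` of weakly global points of level `n`: the latter contains the point
`[0 : 1]` of `𝒳(ℤ[1/ℓ])`, which is not the reduction of a point of `𝒳(ℤ)`.

The proof compares, for `G_ℓ = Gal(ℚ̄_ℓ/ℚ_ℓ)`, the classes of `[0 : 1]` and `[1 : 0]`: the points
`[1 : 0]` and `[0 : 1]` lie in a common disc `𝒴` of `X` over `ℚ̄_ℓ`, on which every finite étale cover
of `p`-power degree is trivial, and this disc is stable under `G_ℓ`, whence a Galois invariant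
path from `[1 : 0]` to `[0 : 1]` in the pro-`p` fundamental groupoid.
-/

namespace Pool.Agent.Results.MP_fd87b4_nt.RegularDivisor

open Pool.Agent.KimAff

/-- For all odd primes `ℓ ≠ p`, the scheme `𝒳 = ℙ¹_ℤ ∖ V(x^ℓ - ℓ y^ℓ)` with base point
`b = [1 : 0]`, the prime `p` and `S = {ℓ}` are admissible, and for every `n` the image of
`𝒳(ℤ)` in `𝒳(ℤ_p)` is strictly contained in the set `𝒳(ℤ_p)_n` of weakly global points (for every
choice of the embeddings `ι v : ℚ̄ → ℚ̄_v`). -/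
theorem result (ℓ p : ℕ) [hℓ : Fact ℓ.Prime] [hp : Fact p.Prime] (hℓ2 : Odd ℓ) (hp2 : Odd p)
    (h : p ≠ ℓ) :
    Admissible (form ℓ) ℓ p {ℓ} ∧
      ∀ (n : ℕ) (ι : ∀ (v : ℕ) [Fact v.Prime], Emb v),
        integralPts (CoordOf (form ℓ)) p ⊂ weaklyGlobal (base ℓ) p n ι :=
  ⟨admissible hℓ.out hℓ2 hp.out hp2 h, fun n ι => main ℓ hℓ2 p h n ι⟩

end Pool.Agent.Results.MP_fd87b4_nt.RegularDivisor
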